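import Pool.Agent.H27.L1.H34.GZ.Targets1

/-!
# Row MUL of the board gz_modules: many bases of a sublattice with bounded rows
-/

set_option autoImplicit false

namespace Pool.Agent.H27.L1.H69.GZ

open Pool.Agent.H27.L1.H34.GM Pool.Agent.H27.L1.H34.GZ

section

variable {m : ℕ}

/-- the number of the values of an entry, minus one -/
noncomputable def nn (v : Fin m → ℝ) (i j : Fin m) : ℕ :=
  if j < i then ⌊v i / v j⌋₊ else 0

/-- the unipotent matrices -/
def uu (v : Fin m → ℝ) (k : ∀ i j : Fin m, Fin (nn v i j + 1)) : ZM m :=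
  Matrix.of fun i j => if i = j then 1 else if j < i then (((k i j : Fin (nn v i j + 1)) : ℕ) : ℤ)
    else 0

theorem uu_det (v : Fin m → ℝ) (k : ∀ i j : Fin m, Fin (nn v i j + 1)) : (uu v k).det = 1 := by
  rw [Matrix.det_of_lowerTriangular]
  · refine Finset.prod_eq_one fun i _ => ?_
    simp [uu]
  · intro i j hij
    have h : i < j := hij
    simp [uu, h.ne, not_lt.2 h.le]

theorem uu_unit (v : Fin m → ℝ) (k : ∀ i j : Fin m, Fin (nn v i j + 1)) : IsUnit (uu v k) := by
  rw [Matrix.isUnit_iff_isUnit_det, uu_det]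
  exact isUnit_one

theorem uu_inj (v : Fin m → ℝ) (k k' : ∀ i j : Fin m, Fin (nn v i j + 1))
    (h : uu v k = uu v k') : k = k' := by
  funext i j
  by_cases hij : j < i
  · have h1 := congrFun (congrFun h i) j
    simp only [uu, Matrix.of_apply, if_neg hij.ne', if_pos hij] at h1
    exact Fin.ext (by exact_mod_cast h1)
  · have h0 : nn v i j = 0 := by simp [nn, hij]
    have h1 := (k i j).isLt
    have h2 := (k' i j).isLt
    exact Fin.ext (by omega)

theorem rowN_norm (v : Fin m → ℝ) :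
    rowN v = ‖(WithLp.toLp 2 v : EuclideanSpace ℝ (Fin m))‖ := by
  rw [EuclideanSpace.norm_eq]
  unfold rowN
  simp

theorem rowN_sum (c : Fin m → ℝ) (w : Fin m → Fin m → ℝ) :
    rowN (fun i => ∑ l, c l * w l i) ≤ ∑ l, |c l| * rowN (w l) := by
  have h : (WithLp.toLp 2 (fun i => ∑ l, c l * w l i) : EuclideanSpace ℝ (Fin m)) =
      ∑ l, c l • (WithLp.toLp 2 (w l) : EuclideanSpace ℝ (Fin m)) := by
    ext i
    simp
  rw [rowN_norm, h]
  refine (norm_sum_le _ _).trans (Finset.sum_le_sum fun l _ => ?_)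
  rw [norm_smul, rowN_norm, Real.norm_eq_abs]

theorem vb_mul (u x : ZM m) (b : Mat m) (i : Fin m) :
    vb ((u * x) i) b = fun j => ∑ l, ((u i l : ℤ) : ℝ) * vb (x l) b j := by
  have h1 : ∀ (y : ZM m) (i : Fin m), vb (y i) b = (cR y * b) i := by
    intro y i
    funext j
    simp [vb, cR, Matrix.vecMul, Matrix.mul_apply, dotProduct]
  have h2 : cR (u * x) = cR u * cR x := by
    ext i j
    simp [cR, Matrix.mul_apply]
  rw [h1, h2, Matrix.mul_assoc]
  funext j
  rw [Matrix.mul_apply]
  refine Finset.sum_congr rfl fun l _ => ?_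
  rw [h1]
  simp [cR]

theorem uu_row (b : Mat m) (v : Fin m → ℝ) (hv : ∀ i, 0 < v i) (x : ZM m)
    (hx : ∀ i, rowN (vb (x i) b) ≤ v i) (k : ∀ i j : Fin m, Fin (nn v i j + 1)) (i : Fin m) :
    rowN (vb ((uu v k * x) i) b) ≤ m * v i := by
  rw [vb_mul]
  refine (rowN_sum _ _).trans ?_
  have h1 : ∀ l : Fin m, |((uu v k i l : ℤ) : ℝ)| * rowN (vb (x l) b) ≤ v i := by
    intro l
    refine (mul_le_mul_of_nonneg_left (hx l) (abs_nonneg _)).trans ?_
    by_cases h2 : i = l
    · subst h2
      simp [uu]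
    · by_cases h3 : l < i
      · have h4 : ((k i l : Fin (nn v i l + 1)) : ℕ) ≤ ⌊v i / v l⌋₊ := by
          have h5 := (k i l).isLt
          have h6 : nn v i l = ⌊v i / v l⌋₊ := by simp [nn, h3]
          omega
        have h7 : (((k i l : Fin (nn v i l + 1)) : ℕ) : ℝ) ≤ v i / v l :=
          (Nat.cast_le.2 h4).trans (Nat.floor_le (div_nonneg (hv i).le (hv l).le))
        have h8 : uu v k i l = (((k i l : Fin (nn v i l + 1)) : ℕ) : ℤ) := by
          simp [uu, h2, h3]
        rw [h8, Int.cast_natCast, Nat.abs_cast]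
        calc _ ≤ v i / v l * v l := mul_le_mul_of_nonneg_right h7 (hv l).le
          _ = v i := div_mul_cancel₀ _ (hv l).ne'
      · have h8 : uu v k i l = 0 := by simp [uu, h2, h3]
        rw [h8]
        simp [(hv i).le]
  refine (Finset.sum_le_sum fun l _ => h1 l).trans ?_
  simp

theorem card_ge (v : Fin m → ℝ) (hv : ∀ i, 0 < v i) :
    ENNReal.ofReal (skw v) ≤
      (Fintype.card (∀ i j : Fin m, Fin (nn v i j + 1)) : ENNReal) := by
  have h1 : skw v ≤ (Fintype.card (∀ i j : Fin m, Fin (nn v i j + 1)) : ℝ) := by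
    unfold skw
    rw [Fintype.card_pi, Nat.cast_prod, Finset.prod_comm]
    refine Finset.prod_le_prod (fun i _ => Finset.prod_nonneg fun j _ => ?_) fun i _ => ?_
    · split_ifs
      · exact div_nonneg (hv _).le (hv _).le
      · exact zero_le_one
    · rw [Fintype.card_pi, Nat.cast_prod]
      refine Finset.prod_le_prod (fun j _ => ?_) fun j _ => ?_
      · split_ifs
        · exact div_nonneg (hv _).le (hv _).le
        · exact zero_le_one
      · rw [Fintype.card_fin]
        by_cases hij : j < i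
        · rw [if_pos hij]
          have h6 : nn v i j = ⌊v i / v j⌋₊ := by simp [nn, hij]
          rw [h6]
          push_cast
          exact (Nat.lt_floor_add_one _).le
        · rw [if_neg hij]
          push_cast
          have : (0 : ℝ) ≤ (nn v i j : ℝ) := Nat.cast_nonneg _
          linarith
  calc ENNReal.ofReal (skw v) ≤ ENNReal.ofReal
        (Fintype.card (∀ i j : Fin m, Fin (nn v i j + 1)) : ℝ) := ENNReal.ofReal_le_ofReal h1
    _ = _ := ENNReal.ofReal_natCast _

theorem right_cancel (x u u' : ZM m) (hx : x.det ≠ 0) (h : u * x = u' * x) : u = u' := by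
  have h1 : u * x * x.adjugate = u' * x * x.adjugate := by rw [h]
  rw [Matrix.mul_assoc, Matrix.mul_assoc, Matrix.mul_adjugate] at h1
  ext i j
  have h2 := congrFun (congrFun h1 i) j
  simp only [Matrix.mul_smul, Matrix.mul_one, Matrix.smul_apply, smul_eq_mul] at h2
  exact mul_left_cancel₀ hx h2

end

theorem pf_MUL : T_IDX → T_MUL := by
  classical
  intro hI m hm
  refine ⟨m, by exact_mod_cast hm, ?_⟩
  intro b v hv _ S sel hS f hf
  obtain ⟨-, -, -, hI4, -⟩ := hI m
  have hinj : Function.Injective (fun p : S × (∀ i j : Fin m, Fin (nn v i j + 1)) =>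
      uu v p.2 * sel p.1) := by
    rintro ⟨⟨L, hL⟩, k⟩ ⟨⟨L', hL'⟩, k'⟩ h
    simp only at h
    have h1 := (hI4 (sel L) (uu v k * sel L) (hS L hL).1).2 ⟨_, uu_unit v k, rfl⟩
    have h2 := (hI4 (sel L') (uu v k' * sel L') (hS L' hL').1).2 ⟨_, uu_unit v k', rfl⟩
    rw [(hS L hL).2.1] at h1
    rw [(hS L' hL').2.1] at h2
    have h3 : L = L' := by rw [h1, h, ← h2]
    subst h3
    have h4 := uu_inj v k k' (right_cancel (sel L) _ _ (hS L hL).1 h)
    rw [h4]
  have hg : ∀ p : S × (∀ i j : Fin m, Fin (nn v i j + 1)),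
      (if inBox b (fun i => (m : ℝ) * v i) (uu v p.2 * sel p.1) then
        f (uu v p.2 * sel p.1) else 0) = f (sel p.1) := by
    rintro ⟨⟨L, hL⟩, k⟩
    have h1 : inBox b (fun i => (m : ℝ) * v i) (uu v k * sel L) := by
      refine ⟨?_, fun i => uu_row b v hv (sel L) (hS L hL).2.2 k i⟩
      rw [Matrix.det_mul, uu_det, one_mul]
      exact (hS L hL).1
    simp only
    rw [if_pos h1, hf _ _ (uu_unit v k)]
  have h5 := ENNReal.tsum_comp_le_tsum_of_injective hinj (fun x : ZM m =>
    if inBox b (fun i => (m : ℝ) * v i) x then f x else 0)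
  simp only [hg] at h5
  refine le_trans ?_ h5
  rw [ENNReal.tsum_prod']
  simp only [tsum_fintype, Finset.sum_const, Finset.card_univ, nsmul_eq_mul]
  rw [ENNReal.tsum_mul_left]
  exact mul_le_mul' (card_ge v hv) le_rfl

end Pool.Agent.H27.L1.H69.GZ
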