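import Pool.Agent.H27.L1.H23.GZ.Targets5

/-!
# Row CL1 of the board gz_modules: the integral over one column
-/

set_option autoImplicit false

namespace Pool.Agent.H27.L1.H69.GZ

open MeasureTheory Pool.Agent.H27.L1.H34.GM Pool.Agent.H27.L1.H34.GZ Module

/-- the radial majorant -/
theorem radial (η B β : ℝ) (k : ℕ) (hk : 1 ≤ k) (hη : 0 < η) (h1 : η ≤ β + k)
    (h2 : β ≤ B) :
    IntegrableOn (fun y : ℝ => y ^ (k - 1) • (y ^ β * (1 + y) ^ (-(B + k + 1 / 2))))
      (Set.Ioi 0) ∧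
    ∫ y in Set.Ioi (0 : ℝ), y ^ (k - 1) • (y ^ β * (1 + y) ^ (-(B + k + 1 / 2))) ≤
      1 / η + 2 := by
  obtain ⟨f, hf⟩ : ∃ f : ℝ → ℝ, f = fun y : ℝ =>
    y ^ (k - 1) • (y ^ β * (1 + y) ^ (-(B + k + 1 / 2))) := ⟨_, rfl⟩
  have hf0 : ∀ y : ℝ, 0 < y → 0 ≤ f y := by
    intro y hy
    rw [hf]
    simp only [smul_eq_mul]
    positivity
  have hval : ∀ y : ℝ, 0 < y → f y = y ^ (β + k - 1) * (1 + y) ^ (-(B + k + 1 / 2)) := by
    intro y hy
    rw [hf]
    simp only [smul_eq_mul]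
    rw [← mul_assoc, ← Real.rpow_natCast, ← Real.rpow_add hy, Nat.cast_sub hk]
    congr 2
    push_cast
    ring
  have hm : Measurable f := by
    rw [hf]
    simp only [smul_eq_mul]
    fun_prop
  have hs : ∀ y : ℝ, 0 < y → y ≤ 1 → f y ≤ y ^ (η - 1) := by
    intro y hy hy1
    rw [hval y hy]
    have a1 : y ^ (β + k - 1) ≤ y ^ (η - 1) :=
      Real.rpow_le_rpow_of_exponent_ge hy hy1 (by linarith)
    by_cases hb : 0 ≤ B + k + 1 / 2
    · have a2 : (1 + y) ^ (-(B + k + 1 / 2)) ≤ 1 :=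
        Real.rpow_le_one_of_one_le_of_nonpos (by linarith) (by linarith)
      calc _ ≤ y ^ (η - 1) * 1 := mul_le_mul a1 a2 (by positivity) (by positivity)
        _ = _ := mul_one _
    · exfalso
      have : 0 < B + k := by linarith
      linarith
  have hl : ∀ y : ℝ, 1 < y → f y ≤ y ^ (-(3 / 2) : ℝ) := by
    intro y hy
    have hy0 : 0 < y := by linarith
    rw [hval y hy0]
    have a1 : y ^ (β + k - 1) ≤ y ^ (B + k - 1) :=
      Real.rpow_le_rpow_of_exponent_le hy.le (by linarith)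
    have a2 : (1 + y) ^ (-(B + k + 1 / 2)) ≤ y ^ (-(B + k + 1 / 2)) := by
      refine Real.rpow_le_rpow_of_nonpos hy0 (by linarith) ?_
      have : 0 < B + k := by linarith
      linarith
    calc _ ≤ y ^ (B + k - 1) * y ^ (-(B + k + 1 / 2)) :=
          mul_le_mul a1 a2 (by positivity) (by positivity)
      _ = _ := by
          rw [← Real.rpow_add hy0]
          congr 1
          ring
  have i1 : IntegrableOn (fun y : ℝ => y ^ (η - 1)) (Set.Ioc 0 1) := by
    have := intervalIntegral.intervalIntegrable_rpow' (a := 0) (b := 1)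
      (r := η - 1) (by linarith)
    rwa [intervalIntegrable_iff_integrableOn_Ioc_of_le zero_le_one] at this
  have i2 : IntegrableOn (fun y : ℝ => y ^ (-(3 / 2) : ℝ)) (Set.Ioi 1) :=
    integrableOn_Ioi_rpow_of_lt (by norm_num) one_pos
  have v1 : ∫ y in Set.Ioc (0 : ℝ) 1, y ^ (η - 1) = 1 / η := by
    rw [← intervalIntegral.integral_of_le zero_le_one, integral_rpow (Or.inl (by linarith))]
    rw [Real.one_rpow, Real.zero_rpow (by linarith)]
    simp
  have v2 : ∫ y in Set.Ioi (1 : ℝ), y ^ (-(3 / 2) : ℝ) = 2 := by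
    rw [integral_Ioi_rpow_of_lt (by norm_num) one_pos, Real.one_rpow]
    norm_num
  have j1 : IntegrableOn f (Set.Ioc 0 1) := by
    refine Integrable.mono' i1 hm.aestronglyMeasurable
      ((ae_restrict_mem measurableSet_Ioc).mono fun y hy => ?_)
    rw [Real.norm_of_nonneg (hf0 y hy.1)]
    exact hs y hy.1 hy.2
  have j2 : IntegrableOn f (Set.Ioi 1) := by
    refine Integrable.mono' i2 hm.aestronglyMeasurable
      ((ae_restrict_mem measurableSet_Ioi).mono fun y hy => ?_)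
    have hy' : (1 : ℝ) < y := hy
    rw [Real.norm_of_nonneg (hf0 y (by linarith))]
    exact hl y hy'
  have hU : Set.Ioc (0 : ℝ) 1 ∪ Set.Ioi 1 = Set.Ioi 0 := Set.Ioc_union_Ioi_eq_Ioi zero_le_one
  rw [← hf]
  refine ⟨by rw [← hU]; exact j1.union j2, ?_⟩
  rw [← hU, setIntegral_union (Set.Ioc_disjoint_Ioi le_rfl) measurableSet_Ioi j1 j2]
  refine add_le_add ?_ ?_
  · rw [← v1]
    exact setIntegral_mono_on j1 i1 measurableSet_Ioc fun y hy => hs y hy.1 hy.2
  · rw [← v2]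
    exact setIntegral_mono_on j2 i2 measurableSet_Ioi fun y hy => hl y hy

/-- the integral over the orthogonal complement -/
theorem ball_int (η B β : ℝ) (k : ℕ) (hk : 1 ≤ k) (hη : 0 < η) (h1 : η ≤ β + k) (h2 : β ≤ B) :
    ∫⁻ x : EuclideanSpace ℝ (Fin k), ENNReal.ofReal (‖x‖ ^ β * (1 + ‖x‖) ^
      (-(B + k + 1 / 2))) ≤
    ENNReal.ofReal (k * ((volume : Measure (EuclideanSpace ℝ (Fin k))).real
      (Metric.ball 0 1) * (1 / η + 2))) := by
  haveI : Nonempty (Fin k) := ⟨⟨0, by omega⟩⟩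
  obtain ⟨hi, hv⟩ := radial η B β k hk hη h1 h2
  have hfr : finrank ℝ (EuclideanSpace ℝ (Fin k)) = k := finrank_euclideanSpace_fin
  have h3 := (integrable_fun_norm_addHaar (volume : Measure (EuclideanSpace ℝ (Fin k)))
    (f := fun y : ℝ => y ^ β * (1 + y) ^ (-(B + k + 1 / 2)))).2 (by rw [hfr]; exact hi)
  have h4 := integral_fun_norm_addHaar (volume : Measure (EuclideanSpace ℝ (Fin k)))
    (fun y : ℝ => y ^ β * (1 + y) ^ (-(B + k + 1 / 2)))
  rw [hfr] at h4
  rw [← ofReal_integral_eq_lintegral_ofReal h3 (ae_of_all _ fun x => by positivity)]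
  refine ENNReal.ofReal_le_ofReal ?_
  rw [h4, nsmul_eq_mul, smul_eq_mul]
  exact mul_le_mul_of_nonneg_left (mul_le_mul_of_nonneg_left hv measureReal_nonneg)
    (Nat.cast_nonneg k)

/-- functions of the norm -/
theorem norm_int {E : Type*} [NormedAddCommGroup E] [InnerProductSpace ℝ E]
    [FiniteDimensional ℝ E] [MeasurableSpace E] [BorelSpace E] (g : ℝ → ENNReal)
    (hg : Measurable g) :
    ∫⁻ x : E, g ‖x‖ = ∫⁻ x : EuclideanSpace ℝ (Fin (finrank ℝ E)), g ‖x‖ := by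
  have h := (stdOrthonormalBasis ℝ E).measurePreserving_repr.lintegral_comp
    (f := fun x => g ‖x‖) (hg.comp measurable_norm)
  simpa only [LinearIsometryEquiv.norm_map] using h

/-- the product bound -/
theorem gen {E U V : Type*} [NormedAddCommGroup E] [InnerProductSpace ℝ E]
    [FiniteDimensional ℝ E] [MeasurableSpace E] [BorelSpace E]
    [NormedAddCommGroup U] [InnerProductSpace ℝ U]
    [FiniteDimensional ℝ U] [MeasurableSpace U] [BorelSpace U]
    [NormedAddCommGroup V] [InnerProductSpace ℝ V]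
    [FiniteDimensional ℝ V] [MeasurableSpace V] [BorelSpace V]
    (T : E ≃ₗᵢ[ℝ] WithLp 2 (U × V)) (η B β : ℝ) (d k : ℕ) (hd : finrank ℝ U = d)
    (hk : finrank ℝ V = k) (hk1 : 1 ≤ k) (hη : 0 < η) (h1 : η ≤ β + k) (h2 : β ≤ B) :
    ∫⁻ c : E, ENNReal.ofReal (‖(T c).snd‖ ^ β * (1 + ‖c‖) ^ (-(B + (d + k : ℝ) + 1))) ≤
      (∫⁻ x : EuclideanSpace ℝ (Fin d), ENNReal.ofReal ((1 + ‖x‖) ^ (-((d : ℝ) + 1 / 2)))) *
      ENNReal.ofReal (k * ((volume : Measure (EuclideanSpace ℝ (Fin k))).real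
        (Metric.ball 0 1) * (1 / η + 2))) := by
  have hBk : 0 < B + k := by linarith
  have e1 : ∀ c : E, ENNReal.ofReal (‖(T c).snd‖ ^ β *
      (1 + ‖c‖) ^ (-(B + (d + k : ℝ) + 1))) =
      (fun p : WithLp 2 (U × V) => ENNReal.ofReal (‖p.snd‖ ^ β *
        (1 + ‖p‖) ^ (-(B + (d + k : ℝ) + 1)))) (T c) := by
    intro c
    simp only [LinearIsometryEquiv.norm_map]
  have hmF : Measurable (fun p : WithLp 2 (U × V) => ENNReal.ofReal (‖p.snd‖ ^ β *
      (1 + ‖p‖) ^ (-(B + (d + k : ℝ) + 1)))) := by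
    have hs : Measurable (fun p : WithLp 2 (U × V) => p.snd) :=
      measurable_snd.comp (WithLp.volume_preserving_ofLp U V).measurable
    fun_prop
  simp only [e1]
  rw [T.measurePreserving.lintegral_comp hmF,
    ← (WithLp.volume_preserving_toLp U V).lintegral_comp hmF]
  have e2 : ∀ q : U × V, ENNReal.ofReal (‖(WithLp.toLp 2 q).snd‖ ^ β *
      (1 + ‖(WithLp.toLp 2 q : WithLp 2 (U × V))‖) ^ (-(B + (d + k : ℝ) + 1))) ≤
      ENNReal.ofReal ((1 + ‖q.1‖) ^ (-((d : ℝ) + 1 / 2))) *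
      ENNReal.ofReal (‖q.2‖ ^ β * (1 + ‖q.2‖) ^ (-(B + k + 1 / 2))) := by
    intro q
    rw [← ENNReal.ofReal_mul (by positivity)]
    refine ENNReal.ofReal_le_ofReal ?_
    have hn := WithLp.prod_norm_sq_eq_of_L2 (WithLp.toLp 2 q : WithLp 2 (U × V))
    have hn1 : ‖q.1‖ ≤ ‖(WithLp.toLp 2 q : WithLp 2 (U × V))‖ := by
      refine le_of_sq_le_sq ?_ (norm_nonneg _)
      rw [hn]
      exact le_add_of_nonneg_right (sq_nonneg _)
    have hn2 : ‖q.2‖ ≤ ‖(WithLp.toLp 2 q : WithLp 2 (U × V))‖ := by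
      refine le_of_sq_le_sq ?_ (norm_nonneg _)
      rw [hn]
      exact le_add_of_nonneg_left (sq_nonneg _)
    obtain ⟨r, hr⟩ : ∃ r : ℝ, r = ‖(WithLp.toLp 2 q : WithLp 2 (U × V))‖ := ⟨_, rfl⟩
    rw [← hr] at hn1 hn2 ⊢
    have hr0 : 0 ≤ r := (norm_nonneg _).trans hn1
    have a1 : (1 + r) ^ (-(B + (d + k : ℝ) + 1)) =
        (1 + r) ^ (-((d : ℝ) + 1 / 2)) * (1 + r) ^ (-(B + k + 1 / 2)) := by
      rw [← Real.rpow_add (by positivity)]
      congr 1
      ring
    have a2 : (1 + r) ^ (-((d : ℝ) + 1 / 2)) ≤ (1 + ‖q.1‖) ^ (-((d : ℝ) + 1 / 2)) :=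
      Real.rpow_le_rpow_of_nonpos (by positivity) (by linarith) (by
        have : (0 : ℝ) ≤ d := Nat.cast_nonneg d
        linarith)
    have a3 : (1 + r) ^ (-(B + k + 1 / 2)) ≤ (1 + ‖q.2‖) ^ (-(B + k + 1 / 2)) :=
      Real.rpow_le_rpow_of_nonpos (by positivity) (by linarith) (by linarith)
    have a4 : ‖(WithLp.toLp 2 q).snd‖ ^ β = ‖q.2‖ ^ β := rfl
    rw [a1, a4]
    calc ‖q.2‖ ^ β * ((1 + r) ^ (-((d : ℝ) + 1 / 2)) * (1 + r) ^ (-(B + k + 1 / 2))) ≤
          ‖q.2‖ ^ β * ((1 + ‖q.1‖) ^ (-((d : ℝ) + 1 / 2)) *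
            (1 + ‖q.2‖) ^ (-(B + k + 1 / 2))) :=
          mul_le_mul_of_nonneg_left (mul_le_mul a2 a3 (by positivity) (by positivity))
            (by positivity)
      _ = _ := by ring
  refine (lintegral_mono e2).trans ?_
  have h6 := lintegral_prod_mul (μ := (volume : Measure U)) (ν := (volume : Measure V))
    (f := fun u => ENNReal.ofReal ((1 + ‖u‖) ^ (-((d : ℝ) + 1 / 2))))
    (g := fun v => ENNReal.ofReal (‖v‖ ^ β * (1 + ‖v‖) ^ (-(B + k + 1 / 2))))
    (by fun_prop) (by fun_prop)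
  rw [Measure.volume_eq_prod]
  refine (le_of_eq h6).trans ?_
  refine mul_le_mul' (le_of_eq ?_) ?_
  · have h3 := norm_int (E := U) (fun t => ENNReal.ofReal ((1 + t) ^ (-((d : ℝ) + 1 / 2))))
      (by fun_prop)
    rw [hd] at h3
    exact h3
  · have h3 := norm_int (E := V) (fun t => ENNReal.ofReal (t ^ β *
      (1 + t) ^ (-(B + k + 1 / 2)))) (by fun_prop)
    rw [hk] at h3
    exact (le_of_eq h3).trans (ball_int η B β k hk1 hη h1 h2)

theorem pf_CL1 : T_CL1 := by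
  intro m η B hη hB
  obtain ⟨A, hA⟩ : ∃ A : ℕ → ENNReal, A = fun d =>
    ∫⁻ x : EuclideanSpace ℝ (Fin d), ENNReal.ofReal ((1 + ‖x‖) ^ (-((d : ℝ) + 1 / 2))) :=
    ⟨_, rfl⟩
  have hAf : ∀ d, A d ≠ ⊤ := by
    intro d
    rw [hA]
    have h1 := integrable_one_add_norm (μ := (volume : Measure (EuclideanSpace ℝ (Fin d))))
      (r := (d : ℝ) + 1 / 2) (by rw [finrank_euclideanSpace_fin]; linarith)
    have h2 := h1.lintegral_lt_top
    exact h2.ne
  obtain ⟨D, hD⟩ : ∃ D : ℕ → ℝ, D = fun k => k * ((volume : Measure (EuclideanSpace ℝ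
    (Fin k))).real (Metric.ball 0 1) * (1 / η + 2)) := ⟨_, rfl⟩
  have hD0 : ∀ k, 0 ≤ D k := by
    intro k
    rw [hD]
    have := measureReal_nonneg (μ := (volume : Measure (EuclideanSpace ℝ (Fin k))))
      (s := Metric.ball 0 1)
    positivity
  refine ⟨∑ d ∈ Finset.range m, (A d).toReal * D (m - d) + 1, ?_, ?_⟩
  · have : 0 ≤ ∑ d ∈ Finset.range m, (A d).toReal * D (m - d) :=
      Finset.sum_nonneg fun d _ => mul_nonneg ENNReal.toReal_nonneg (hD0 _)
    linarith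
  intro W d hW hd β h1 h2
  have hk : finrank ℝ Wᗮ = m - d := by
    have h3 := Submodule.finrank_add_finrank_orthogonal W
    rw [finrank_euclideanSpace_fin, hW] at h3
    omega
  have hkr : ((m - d : ℕ) : ℝ) = (m : ℝ) - d := by
    rw [Nat.cast_sub hd.le]
  have h4 := gen W.orthogonalDecomposition η B β d (m - d) hW hk (by omega) hη
    (by rw [hkr]; exact h1) h2
  have e1 : ∀ c : EuclideanSpace ℝ (Fin m), ‖c - W.starProjection c‖ =
      ‖(W.orthogonalDecomposition c).snd‖ := by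
    intro c
    rw [Submodule.orthogonalDecomposition_apply, ← Submodule.starProjection_orthogonal_val]
    rfl
  have e2 : (B + ((d : ℝ) + ((m - d : ℕ) : ℝ)) + 1) = B + m + 1 := by
    rw [hkr]
    ring
  rw [e2] at h4
  simp only [e1]
  refine h4.trans ?_
  have e3 : (∫⁻ x : EuclideanSpace ℝ (Fin d), ENNReal.ofReal
      ((1 + ‖x‖) ^ (-((d : ℝ) + 1 / 2)))) = A d := by rw [hA]
  have e4 : ((m - d : ℕ) : ℝ) * ((volume : Measure (EuclideanSpace ℝ (Fin (m - d)))).real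
      (Metric.ball 0 1) * (1 / η + 2)) = D (m - d) := by rw [hD]
  rw [e3, e4, ← ENNReal.ofReal_toReal (hAf d), ← ENNReal.ofReal_mul ENNReal.toReal_nonneg]
  refine ENNReal.ofReal_le_ofReal ?_
  have h5 := Finset.single_le_sum (f := fun d => (A d).toReal * D (m - d))
    (s := Finset.range m) (fun d _ => mul_nonneg ENNReal.toReal_nonneg (hD0 _))
    (Finset.mem_range.2 hd)
  linarith

end Pool.Agent.H27.L1.H69.GZ
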